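import Pool.Agent.Lib.MP_761168_co.X.JP3_93

/-!
# Lower bound: polytopes with n vertices and radius n / 4 + 1 (definitions)
-/

namespace MP_761168_co

open Finset

/-- Every point of the family is the unique maximum of some linear functional over the family. -/
def AllExp {ι : Type} (p : ι → E3) : Prop :=
  ∀ i, ∃ l : E3 →ₗ[ℝ] ℝ, ∀ j, j ≠ i → l (p j) < l (p i)

/-- Cyclic distance of two indices `a, b < k`. -/
def cyc (k a b : ℕ) : ℕ := min (max a b - min a b) (k - (max a b - min a b))

/-- The points of the prism over the k-gon with vertices (i, i^2). -/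
noncomputable def prismPt (k : ℕ) (x : Fin k × Bool) : E3 :=
  !₂[(x.1 : ℝ), (x.1 : ℝ) ^ 2, if x.2 then 1 else 0]

/-- The points of the truncated prism: the bottom vertex (0, 0, 0) is replaced by the midpoints
of the two bottom edges at it. -/
noncomputable def truncPt (k : ℕ) : Option (Fin k × Bool) → E3
  | none => !₂[((k : ℝ) - 1) / 2, ((k : ℝ) - 1) ^ 2 / 2, 0]
  | some x => if (x.1 : ℕ) = 0 ∧ x.2 = false then !₂[1 / 2, 1 / 2, 0] else prismPt k x

/-- The index of a vertex of the truncated prism. -/
def truncIdx (k : ℕ) : Option (Fin k × Bool) → ℕ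
  | none => 0
  | some x => x.1

/-- The level of a vertex of the truncated prism. -/
def truncBit (k : ℕ) : Option (Fin k × Bool) → Bool
  | none => false
  | some x => x.2

end MP_761168_co
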