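import Pool.Agent.Lib.MP_761168_co.L.Defs56

/-!
# Lower bound: hull lemmas (helper11, second hand)
-/

namespace MP_761168_co

open Finset

/-- L1a -/
theorem AllExp.injective {ι : Type} {p : ι → E3} (h : AllExp p) : Function.Injective p := by
  intro i j hij
  by_contra hne
  obtain ⟨l, hl⟩ := h i
  have h1 := hl j (Ne.symm hne)
  rw [hij] at h1
  exact lt_irrefl _ h1

/-- points of the hull as convex combinations -/
theorem exists_w11 {ι : Type} [Fintype ι] {p : ι → E3} {x : E3}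
    (hx : x ∈ convexHull ℝ (Set.range p)) :
    ∃ w : ι → ℝ, (∀ i, 0 ≤ w i) ∧ ∑ i, w i = 1 ∧ ∑ i, w i • p i = x := by
  classical
  have h1 : convexHull ℝ (Set.range p) ⊆
      {x | ∃ w : ι → ℝ, (∀ i, 0 ≤ w i) ∧ ∑ i, w i = 1 ∧ ∑ i, w i • p i = x} := by
    apply convexHull_min
    · rintro y ⟨i, rfl⟩
      refine ⟨fun j => if j = i then 1 else 0, fun j => ?_, ?_, ?_⟩
      · dsimp only
        split_ifs <;> norm_num
      · simp
      · simp [ite_smul]
    · rintro y ⟨w, h1, h2, rfl⟩ z ⟨v, h3, h4, rfl⟩ a b ha hb hab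
      refine ⟨fun i => a * w i + b * v i, fun i => ?_, ?_, ?_⟩
      · have := h1 i
        have := h3 i
        positivity
      · rw [sum_add_distrib, ← mul_sum, ← mul_sum, h2, h4]
        linarith
      · rw [smul_sum, smul_sum, ← sum_add_distrib]
        exact sum_congr rfl fun i _ => by rw [add_smul, mul_smul, mul_smul]
  exact h1 hx

/-- a point of the hull at which the functional is maximal -/
theorem w_zero11 {ι : Type} [Fintype ι] {p : ι → E3} (l : E3 →ₗ[ℝ] ℝ) {c : ℝ} {w : ι → ℝ}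
    (h0 : ∀ i, 0 ≤ w i) (h1 : ∑ i, w i = 1) (hc : ∀ i, l (p i) ≤ c)
    (h : c ≤ l (∑ i, w i • p i)) : ∀ i, l (p i) < c → w i = 0 := by
  intro i hi
  by_contra hne
  have hpos : 0 < w i := lt_of_le_of_ne (h0 i) (Ne.symm hne)
  have h2 : l (∑ i, w i • p i) = ∑ i, w i * l (p i) := by
    rw [map_sum]
    exact sum_congr rfl fun i _ => by rw [map_smul, smul_eq_mul]
  have h3 : ∑ i, w i * l (p i) < ∑ i, w i * c := by
    apply sum_lt_sum
    · intro j _
      exact mul_le_mul_of_nonneg_left (hc j) (h0 j)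
    · exact ⟨i, mem_univ i, mul_lt_mul_of_pos_left hi hpos⟩
  rw [← sum_mul, h1, one_mul] at h3
  linarith

/-- a functional on the hull -/
theorem hull_le11 {ι : Type} [Fintype ι] {p : ι → E3} (l : E3 →ₗ[ℝ] ℝ) {c : ℝ}
    (h : ∀ i, l (p i) ≤ c) {x : E3} (hx : x ∈ convexHull ℝ (Set.range p)) : l x ≤ c := by
  obtain ⟨w, h0, h1, rfl⟩ := exists_w11 hx
  rw [map_sum]
  calc ∑ i, l (w i • p i) = ∑ i, w i * l (p i) :=
        sum_congr rfl fun i _ => by rw [map_smul, smul_eq_mul]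
    _ ≤ ∑ i, w i * c := sum_le_sum fun i _ => mul_le_mul_of_nonneg_left (h i) (h0 i)
    _ = c := by rw [← sum_mul, h1, one_mul]

/-- L1b -/
theorem AllExp.extreme {ι : Type} [Fintype ι] {p : ι → E3} (h : AllExp p) :
    (convexHull ℝ (Set.range p)).extremePoints ℝ = Set.range p := by
  classical
  apply Set.Subset.antisymm
  · exact extremePoints_convexHull_subset
  · rintro x ⟨i, rfl⟩
    apply exposedPoints_subset_extremePoints
    obtain ⟨l, hl⟩ := h i
    have hle : ∀ j, l (p j) ≤ l (p i) := by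
      intro j
      by_cases e : j = i
      · rw [e]
      · exact (hl j e).le
    refine ⟨subset_convexHull ℝ _ ⟨i, rfl⟩, LinearMap.toContinuousLinearMap l, ?_⟩
    intro y hy
    refine ⟨hull_le11 l hle hy, ?_⟩
    intro h2
    obtain ⟨w, h0, h1, rfl⟩ := exists_w11 hy
    have h3 := w_zero11 l h0 h1 hle h2
    have h4 : ∀ j, j ≠ i → w j = 0 := fun j hj => h3 j (hl j hj)
    have h5 : w i = 1 := by
      rw [← h1]
      symm
      exact Finset.sum_eq_single i (fun j _ hj => h4 j hj) (fun h => absurd (mem_univ i) h)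
    rw [Finset.sum_eq_single i (fun j _ hj => by rw [h4 j hj, zero_smul])
      (fun h => absurd (mem_univ i) h), h5, one_smul]

/-- L1c -/
theorem AllExp.functional {ι : Type} [Fintype ι] {p : ι → E3} (h : AllExp p) {i j : ι}
    (hij : i ≠ j)
    (he : IsExposed ℝ (convexHull ℝ (Set.range p)) (segment ℝ (p i) (p j))) :
    ∃ l : E3 →ₗ[ℝ] ℝ, l (p i) = l (p j) ∧ ∀ m, m ≠ i → m ≠ j → l (p m) < l (p i) := by
  obtain ⟨l, hl⟩ := he ⟨p i, left_mem_segment ℝ _ _⟩
  have hmem : ∀ m, p m ∈ convexHull ℝ (Set.range p) := fun m =>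
    subset_convexHull ℝ _ ⟨m, rfl⟩
  have h1 : p i ∈ segment ℝ (p i) (p j) := left_mem_segment ℝ _ _
  have h2 : p j ∈ segment ℝ (p i) (p j) := right_mem_segment ℝ _ _
  rw [hl] at h1 h2
  refine ⟨(l : E3 →ₗ[ℝ] ℝ), le_antisymm (h2.2 _ (hmem i)) (h1.2 _ (hmem j)), ?_⟩
  intro m hmi hmj
  refine lt_of_le_of_ne (h1.2 _ (hmem m)) ?_
  intro he1
  have h3 : p m ∈ segment ℝ (p i) (p j) := by
    rw [hl]
    refine ⟨hmem m, fun y hy => ?_⟩
    have h4 := h1.2 y hy
    have h5 : l (p m) = l (p i) := he1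
    rw [h5]
    exact h4
  obtain ⟨a, b, ha, hb, hab, h4⟩ := h3
  obtain ⟨l', hl'⟩ := h m
  have e1 := hl' i (Ne.symm hmi)
  have e2 := hl' j (Ne.symm hmj)
  have e3 : l' (p m) = a * l' (p i) + b * l' (p j) := by
    rw [← h4, map_add, map_smul, map_smul, smul_eq_mul, smul_eq_mul]
  have e4 : l' (p m) = a * l' (p m) + b * l' (p m) := by
    rw [← add_mul, hab, one_mul]
  rcases ha.lt_or_eq with ha' | ha'
  · have := mul_lt_mul_of_pos_left e1 ha'
    have := mul_le_mul_of_nonneg_left e2.le hb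
    linarith
  · have hb' : 0 < b := by linarith
    have := mul_lt_mul_of_pos_left e2 hb'
    have := mul_le_mul_of_nonneg_left e1.le ha
    linarith

/-- L1d -/
theorem isPolytope3_range {ι : Type} [Fintype ι] {p : ι → E3}
    (h : ∀ l : E3 →ₗ[ℝ] ℝ, (∀ i j, l (p i) = l (p j)) → l = 0) (hne : Nonempty ι) :
    IsPolytope3 (convexHull ℝ (Set.range p)) := by
  classical
  refine ⟨⟨univ.image p, by rw [coe_image, coe_univ, Set.image_univ]⟩, ?_⟩
  rw [interior_convexHull_nonempty_iff_affineSpan_eq_top]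
  have hr : (Set.range p).Nonempty := Set.range_nonempty p
  rw [AffineSubspace.affineSpan_eq_top_iff_vectorSpan_eq_top_of_nonempty ℝ E3 E3 hr]
  by_contra hc
  obtain ⟨f, hf, hle⟩ := Submodule.exists_le_ker_of_lt_top _ (lt_top_iff_ne_top.2 hc)
  apply hf
  apply h
  intro i j
  have h1 : p i - p j ∈ vectorSpan ℝ (Set.range p) :=
    vsub_mem_vectorSpan ℝ ⟨i, rfl⟩ ⟨j, rfl⟩
  have h2 := hle h1
  rw [LinearMap.mem_ker, map_sub] at h2
  linarith

end MP_761168_co
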