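import Pool.Agent.Lib.MP_761168_co.L.L1_11

/-!
# Lower bound: the radius from a level function and an index function
-/

namespace MP_761168_co

open Finset

theorem cyc_self56 {k a : ℕ} : cyc k a a = 0 := by
  unfold cyc
  omega

theorem cyc_tri56 {k a b c : ℕ} (ha : a < k) (hb : b < k) (hc : c < k) :
    cyc k a c ≤ cyc k a b + cyc k b c := by
  unfold cyc
  omega

/-- L2 -/
theorem radius_ge {ι : Type} [Fintype ι] {p : ι → E3} (h : AllExp p)
    {k : ℕ} (hk : 1 ≤ k) (bit : ι → Bool) (pr : ι → ℕ) (hpr : ∀ i, pr i < k)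
    (hadj : ∀ i j : ι, i ≠ j →
      (∃ l : E3 →ₗ[ℝ] ℝ, l (p i) = l (p j) ∧ ∀ m, m ≠ i → m ≠ j → l (p m) < l (p i)) →
      (bit i = bit j ∧ cyc k (pr i) (pr j) ≤ 1) ∨ (bit i ≠ bit j ∧ pr i = pr j))
    (hfar : ∀ i, ∃ j, bit i ≠ bit j ∧ k / 2 ≤ cyc k (pr i) (pr j)) :
    ((k / 2 + 1 : ℕ) : ℕ∞) ≤ (vertexGraph (convexHull ℝ (Set.range p))).radius := by
  classical
  have hV : ∀ x : Vertex (convexHull ℝ (Set.range p)), ∃ i, p i = (x : E3) := by
    intro x
    exact (Set.ext_iff.1 h.extreme (x : E3)).1 x.2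
  choose idx hidx using hV
  have hwalk : ∀ (u v : Vertex (convexHull ℝ (Set.range p)))
      (w : (vertexGraph (convexHull ℝ (Set.range p))).Walk u v),
      cyc k (pr (idx u)) (pr (idx v)) + (if bit (idx u) = bit (idx v) then 0 else 1)
        ≤ w.length := by
    intro u v w
    induction w with
    | nil => simp [cyc_self56]
    | @cons a b c hab w ih =>
      rw [SimpleGraph.Walk.length_cons]
      have hne : idx a ≠ idx b := by
        intro hc
        apply hab.1
        apply Subtype.ext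
        rw [← hidx a, ← hidx b, hc]
      have hex : IsExposed ℝ (convexHull ℝ (Set.range p)) (segment ℝ (p (idx a)) (p (idx b))) := by
        rw [hidx a, hidx b]
        exact hab.2
      have hcase := hadj (idx a) (idx b) hne (h.functional hne hex)
      have htri := cyc_tri56 (hpr (idx a)) (hpr (idx b)) (hpr (idx c))
      rcases hcase with ⟨h1, h2⟩ | ⟨h1, h2⟩
      · rw [h1]
        omega
      · rw [h2]
        have h3 : (if bit (idx a) = bit (idx c) then 0 else 1)
            ≤ (if bit (idx b) = bit (idx c) then 0 else 1) + 1 := by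
          split_ifs <;> omega
        omega
  rw [SimpleGraph.radius_eq_iInf_iSup_edist]
  refine le_iInf fun u => ?_
  obtain ⟨j, hj1, hj2⟩ := hfar (idx u)
  have hjV : p j ∈ (convexHull ℝ (Set.range p)).extremePoints ℝ := by
    exact (Set.ext_iff.1 h.extreme (p j)).2 ⟨j, rfl⟩
  have hji : idx ⟨p j, hjV⟩ = j := h.injective (hidx ⟨p j, hjV⟩)
  refine le_iSup_of_le ⟨p j, hjV⟩ ?_
  rw [SimpleGraph.edist]
  refine le_iInf fun w => ?_
  have h1 := hwalk u ⟨p j, hjV⟩ w
  rw [hji, if_neg hj1] at h1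
  exact_mod_cast le_trans (by omega) h1

end MP_761168_co
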