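import Pool.Agent.Lib.MP_761168_co.L.Defs56

/-!
# Lower bound: the edges of the truncated prism
-/

namespace MP_761168_co

open Finset

namespace L4c51

/-- The value of a functional at a point. -/
theorem coords (l : E3 →ₗ[ℝ] ℝ) : ∃ A B C : ℝ, ∀ x y z : ℝ,
    l !₂[x, y, z] = A * x + B * y + C * z := by
  refine ⟨l !₂[1, 0, 0], l !₂[0, 1, 0], l !₂[0, 0, 1], fun x y z => ?_⟩
  have h : (!₂[x, y, z] : E3) = x • !₂[1, 0, 0] + y • !₂[0, 1, 0] + z • !₂[0, 0, 1] := by
    ext i
    fin_cases i <;> simp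
  rw [h, map_add, map_add, map_smul, map_smul, map_smul, smul_eq_mul, smul_eq_mul, smul_eq_mul]
  ring

/-- The value at the point of index `x`. -/
def g (A B x : ℝ) : ℝ := A * x + B * x ^ 2

theorem g_low {A B M K j : ℝ} (hM : M < 0) (h1 : g A B 1 ≤ 2 * M) (hK : g A B K ≤ 2 * M)
    (hj1 : 1 ≤ j) (hjK : j ≤ K) (hK1 : 1 < K) : g A B j ≤ 2 * M := by
  have e : K * (K - 1) * g A B j = j * (K - j) * K * g A B 1 + j * (j - 1) * g A B K := by
    unfold g
    ring
  have ha : 0 ≤ j * (K - j) * K := by
    have : 0 ≤ K - j := by linarith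
    have : 0 ≤ j := by linarith
    positivity
  have hb : 0 ≤ j * (j - 1) := by
    have : 0 ≤ j - 1 := by linarith
    have : 0 ≤ j := by linarith
    positivity
  have hc : 0 < K * (K - 1) := by
    have : 0 < K - 1 := by linarith
    have : 0 < K := by linarith
    positivity
  have hab : K * (K - 1) ≤ j * (K - j) * K + j * (j - 1) := by
    have : 0 ≤ (K - 1) * ((j - 1) * (K - j)) :=
      mul_nonneg (by linarith) (mul_nonneg (by linarith) (by linarith))
    nlinarith
  have h2 := mul_le_mul_of_nonneg_left h1 ha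
  have h3 := mul_le_mul_of_nonneg_left hK hb
  have h4 : (j * (K - j) * K + j * (j - 1)) * (2 * M) ≤ K * (K - 1) * (2 * M) := by
    have := mul_le_mul_of_nonneg_right hab (by linarith : (0 : ℝ) ≤ -(2 * M))
    linarith
  have h5 : K * (K - 1) * g A B j ≤ K * (K - 1) * (2 * M) := by
    rw [e]
    linarith
  exact le_of_mul_le_mul_left h5 hc

theorem g_sub {A B i j : ℝ} (h : g A B i = g A B j) (hij : i ≠ j) (x : ℝ) :
    g A B x - g A B i = B * ((x - i) * (x - j)) := by
  unfold g at *
  have h1 : (i - j) * (A + B * (i + j)) = 0 := by linear_combination h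
  have h2 : A + B * (i + j) = 0 := by
    rcases mul_eq_zero.1 h1 with h3 | h3
    · exact absurd (sub_eq_zero.1 h3) hij
    · exact h3
  linear_combination (x - i) * h2

/-- Two points of the top polygon. -/
theorem top_top {A B : ℝ} {k i j : ℕ} (hij : i + 2 ≤ j) (hj : j < k) (hw : i ≠ 0 ∨ j + 1 ≠ k)
    (e : g A B i = g A B j) (h : ∀ m : ℕ, m < k → m ≠ i → m ≠ j → g A B m < g A B i) : False := by
  have hne : (i : ℝ) ≠ j := by
    intro hc
    have : i = j := by exact_mod_cast hc
    omega
  have hs := g_sub e hne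
  have hij' : (i : ℝ) + 2 ≤ j := by exact_mod_cast hij
  have h1 := h (i + 1) (by omega) (by omega) (by omega)
  have h2 := hs ((i + 1 : ℕ) : ℝ)
  push_cast at h1 h2
  have hB : 0 < B := by
    by_contra hB
    push Not at hB
    have h3 : 0 ≤ B * (((i : ℝ) + 1 - i) * (i + 1 - j)) :=
      mul_nonneg_of_nonpos_of_nonpos hB
        (mul_nonpos_of_nonneg_of_nonpos (by linarith) (by linarith))
    linarith
  rcases hw with hw | hw
  · have h3 := h 0 (by omega) (by omega) (by omega)
    have h4 := hs ((0 : ℕ) : ℝ)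
    have h5 : (0 : ℝ) ≤ i := Nat.cast_nonneg i
    have h6 : 0 ≤ B * ((((0 : ℕ) : ℝ) - i) * (((0 : ℕ) : ℝ) - j)) := by
      refine mul_nonneg hB.le (mul_nonneg_of_nonpos_of_nonpos ?_ ?_) <;>
        (push_cast; linarith)
    linarith
  · have h3 := h (j + 1) (by omega) (by omega) (by omega)
    have h4 := hs ((j + 1 : ℕ) : ℝ)
    have h6 : 0 ≤ B * ((((j + 1 : ℕ) : ℝ) - i) * (((j + 1 : ℕ) : ℝ) - j)) := by
      refine mul_nonneg hB.le (mul_nonneg ?_ ?_) <;>
        (push_cast; linarith)
    linarith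

/-- Two old points of the bottom polygon. -/
theorem bot_bot {A B : ℝ} {k i j : ℕ} (hi : 1 ≤ i) (hij : i + 2 ≤ j) (hj : j < k)
    (e : g A B i = g A B j)
    (h : ∀ m : ℕ, 1 ≤ m → m < k → m ≠ i → m ≠ j → g A B m < g A B i)
    (h0 : g A B 1 / 2 < g A B i) : False := by
  have hne : (i : ℝ) ≠ j := by
    intro hc
    have : i = j := by exact_mod_cast hc
    omega
  have hs := g_sub e hne
  have hij' : (i : ℝ) + 2 ≤ j := by exact_mod_cast hij
  have hi' : (1 : ℝ) ≤ i := by exact_mod_cast hi
  have h1 := h (i + 1) (by omega) (by omega) (by omega) (by omega)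
  have h2 := hs ((i + 1 : ℕ) : ℝ)
  push_cast at h1 h2
  have hB : 0 < B := by
    by_contra hB
    push Not at hB
    have h3 : 0 ≤ B * (((i : ℝ) + 1 - i) * (i + 1 - j)) :=
      mul_nonneg_of_nonpos_of_nonpos hB
        (mul_nonpos_of_nonneg_of_nonpos (by linarith) (by linarith))
    linarith
  have h3 := hs 0
  have h4 := hs 1
  have h5 : 0 < B * ((0 - (i : ℝ)) * (0 - j)) := by
    refine mul_pos hB (mul_pos_of_neg_of_neg ?_ ?_) <;> linarith
  have h6 : 0 ≤ B * ((1 - (i : ℝ)) * (1 - j)) := by
    refine mul_nonneg hB.le (mul_nonneg_of_nonpos_of_nonpos ?_ ?_) <;> linarith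
  have h7 : g A B 0 = 0 := by
    unfold g
    ring
  linarith

end L4c51

open L4c51

/-- L4c -/
theorem trunc_adj {k : ℕ} (hk : 3 ≤ k) (i j : Option (Fin k × Bool)) (hij : i ≠ j)
    (h : ∃ l : E3 →ₗ[ℝ] ℝ, l (truncPt k i) = l (truncPt k j) ∧
      ∀ m, m ≠ i → m ≠ j → l (truncPt k m) < l (truncPt k i)) :
    (truncBit k i = truncBit k j ∧ cyc k (truncIdx k i) (truncIdx k j) ≤ 1) ∨
      (truncBit k i ≠ truncBit k j ∧ truncIdx k i = truncIdx k j) := by
  obtain ⟨l, he, hl⟩ := h
  obtain ⟨A, B, C, hABC⟩ := coords l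
  have vT : ∀ (m : ℕ) (hm : m < k), l (truncPt k (some (⟨m, hm⟩, true))) = g A B m + C := by
    intro m hm
    have e : truncPt k (some (⟨m, hm⟩, true)) = !₂[(m : ℝ), (m : ℝ) ^ 2, 1] := by
      simp [truncPt, prismPt]
    rw [e, hABC]
    unfold g
    ring
  have vB : ∀ (m : ℕ) (hm : m < k), 1 ≤ m → l (truncPt k (some (⟨m, hm⟩, false))) = g A B m := by
    intro m hm h1
    have e : truncPt k (some (⟨m, hm⟩, false)) = !₂[(m : ℝ), (m : ℝ) ^ 2, 0] := by
      have h2 : ¬ m = 0 := by omega
      simp [truncPt, prismPt, h2]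
    rw [e, hABC]
    unfold g
    ring
  have v0 : ∀ hm : 0 < k, l (truncPt k (some (⟨0, hm⟩, false))) = g A B 1 / 2 := by
    intro hm
    have e : truncPt k (some (⟨0, hm⟩, false)) = !₂[1 / 2, 1 / 2, 0] := by
      simp [truncPt]
    rw [e, hABC]
    unfold g
    ring
  have vN : l (truncPt k none) = g A B ((k - 1 : ℕ) : ℝ) / 2 := by
    have e : truncPt k none = !₂[((k : ℝ) - 1) / 2, ((k : ℝ) - 1) ^ 2 / 2, 0] := rfl
    rw [e, hABC]
    unfold g
    rw [Nat.cast_sub (by omega : 1 ≤ k)]
    push_cast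
    ring
  have hk0 : 0 < k := by omega
  have hk1 : k - 1 < k := by omega
  have hK : ((k - 1 : ℕ) : ℝ) = (k : ℝ) - 1 := by
    rw [Nat.cast_sub (by omega : 1 ≤ k)]
    push_cast
    ring
  have hk3 : (3 : ℝ) ≤ k := by exact_mod_cast hk
  have g0 : g A B 0 = 0 := by
    unfold g
    ring
  have low : ∀ (M : ℝ) (m : ℕ), M < 0 → g A B 1 ≤ 2 * M → g A B ((k - 1 : ℕ) : ℝ) ≤ 2 * M →
      1 ≤ m → m < k → g A B m < M := by
    intro M m hM h1 h2 h3 h4
    have h5 : (1 : ℝ) ≤ m := by exact_mod_cast h3
    have h6 : (m : ℝ) ≤ ((k - 1 : ℕ) : ℝ) := by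
      have : m ≤ k - 1 := by omega
      exact_mod_cast this
    have := g_low hM h1 h2 h5 h6 (by rw [hK]; linarith)
    linarith
  -- top and top
  have TT : ∀ (a b : ℕ) (ha : a < k) (hb : b < k), a < b →
      l (truncPt k (some (⟨a, ha⟩, true))) = l (truncPt k (some (⟨b, hb⟩, true))) →
      (∀ m, m ≠ some (⟨a, ha⟩, true) → m ≠ some (⟨b, hb⟩, true) →
        l (truncPt k m) < l (truncPt k (some (⟨a, ha⟩, true)))) → cyc k a b ≤ 1 := by
    intro a b ha hb hab e h
    by_contra hc
    have h1 : a + 2 ≤ b ∧ (a ≠ 0 ∨ b + 1 ≠ k) := by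
      unfold cyc at hc
      omega
    refine top_top (A := A) (B := B) h1.1 hb h1.2 ?_ fun m hm h2 h3 => ?_
    · rw [vT, vT] at e
      linarith
    · have := h (some (⟨m, hm⟩, true)) (by simpa using h2) (by simpa using h3)
      rw [vT, vT] at this
      linarith
  -- bottom and bottom
  have BB : ∀ (a b : ℕ) (ha : a < k) (hb : b < k), a < b →
      l (truncPt k (some (⟨a, ha⟩, false))) = l (truncPt k (some (⟨b, hb⟩, false))) →
      (∀ m, m ≠ some (⟨a, ha⟩, false) → m ≠ some (⟨b, hb⟩, false) →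
        l (truncPt k m) < l (truncPt k (some (⟨a, ha⟩, false)))) → cyc k a b ≤ 1 := by
    intro a b ha hb hab e h
    by_contra hc
    have h1 : a + 2 ≤ b ∧ (a ≠ 0 ∨ b + 1 ≠ k) := by
      unfold cyc at hc
      omega
    rw [vB b hb (by omega)] at e
    by_cases ha0 : a = 0
    · subst ha0
      rw [v0 ha] at e
      have h2 := h (some (⟨1, by omega⟩, false)) (by simp) (by simp; omega)
      rw [vB 1 _ le_rfl, v0 ha] at h2
      have h3 := h none (by simp) (by simp)
      rw [vN, v0 ha] at h3
      have h4 := low (g A B 1 / 2) b (by push_cast at h2; linarith) (by linarith) (by linarith)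
        (by omega) hb
      linarith
    · rw [vB a ha (by omega)] at e
      refine bot_bot (A := A) (B := B) (i := a) (by omega) h1.1 hb e
        (fun m hm1 hm h2 h3 => ?_) ?_
      · have := h (some (⟨m, hm⟩, false)) (by simpa using h2) (by simpa using h3)
        rwa [vB m hm hm1, vB a ha (by omega)] at this
      · have := h (some (⟨0, hk0⟩, false)) (by simp; omega) (by simp; omega)
        rwa [v0, vB a ha (by omega)] at this
  -- bottom and the last one
  have BN : ∀ (b : ℕ) (hb : b < k),
      l (truncPt k (some (⟨b, hb⟩, false))) = l (truncPt k none) →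
      (∀ m, m ≠ some (⟨b, hb⟩, false) → m ≠ none →
        l (truncPt k m) < l (truncPt k none)) → cyc k b 0 ≤ 1 := by
    intro b hb e h
    by_contra hc
    have h1 : 2 ≤ b ∧ b + 1 ≠ k := by
      unfold cyc at hc
      omega
    rw [vB b hb (by omega), vN] at e
    have h2 := h (some (⟨0, hk0⟩, false)) (by simp; omega) (by simp)
    rw [v0, vN] at h2
    have h3 := h (some (⟨k - 1, hk1⟩, false)) (by simp; omega) (by simp)
    rw [vB (k - 1) hk1 (by omega), vN] at h3
    have h4 := low (g A B ((k - 1 : ℕ) : ℝ) / 2) b (by linarith) (by linarith) (by linarith)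
      (by omega) hb
    linarith
  -- top and bottom
  have TB : ∀ (a b : ℕ) (ha : a < k) (hb : b < k),
      l (truncPt k (some (⟨a, ha⟩, true))) = l (truncPt k (some (⟨b, hb⟩, false))) →
      (∀ m, m ≠ some (⟨a, ha⟩, true) → m ≠ some (⟨b, hb⟩, false) →
        l (truncPt k m) < l (truncPt k (some (⟨b, hb⟩, false)))) → a = b := by
    intro a b ha hb e h
    by_contra hab
    by_cases hb0 : b = 0
    · subst hb0
      have ha1 : 1 ≤ a := by omega
      rw [vT, v0] at e
      have h1 := h (some (⟨a, ha⟩, false)) (by simp) (by simp; omega)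
      rw [vB a ha ha1, v0] at h1
      have h2 := h (some (⟨0, hk0⟩, true)) (by simp; omega) (by simp)
      rw [vT, v0] at h2
      push_cast at h2
      rw [g0] at h2
      have h3 : g A B 1 + C ≤ g A B 1 / 2 := by
        by_cases ha2 : a = 1
        · subst ha2
          push_cast at e
          exact e.le
        · have h3 := h (some (⟨1, by omega⟩, true)) (by simp; omega) (by simp)
          rw [vT, v0] at h3
          push_cast at h3
          exact h3.le
      linarith
    · have hb1 : 1 ≤ b := by omega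
      rw [vT, vB b hb hb1] at e
      have h1 := h (some (⟨b, hb⟩, true)) (by simp; omega) (by simp)
      rw [vT, vB b hb hb1] at h1
      by_cases ha0 : a = 0
      · subst ha0
        push_cast at e
        rw [g0] at e
        have h2 := h (some (⟨0, hk0⟩, false)) (by simp) (by simp; omega)
        rw [v0, vB b hb hb1] at h2
        have h3 := h none (by simp) (by simp)
        rw [vN, vB b hb hb1] at h3
        have h4 := low (g A B b) b (by linarith) (by linarith) (by linarith) hb1 hb
        linarith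
      · have h2 := h (some (⟨a, ha⟩, false)) (by simp) (by simp; omega)
        rw [vB a ha (by omega), vB b hb hb1] at h2
        linarith
  -- top and the last one
  have TN : ∀ (a : ℕ) (ha : a < k),
      l (truncPt k (some (⟨a, ha⟩, true))) = l (truncPt k none) →
      (∀ m, m ≠ some (⟨a, ha⟩, true) → m ≠ none →
        l (truncPt k m) < l (truncPt k none)) → a = 0 := by
    intro a ha e h
    by_contra ha0
    have ha1 : 1 ≤ a := by omega
    rw [vT, vN] at e
    have h1 := h (some (⟨a, ha⟩, false)) (by simp) (by simp)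
    rw [vB a ha ha1, vN] at h1
    have h2 := h (some (⟨0, hk0⟩, true)) (by simp; omega) (by simp)
    rw [vT, vN] at h2
    push_cast at h2
    rw [g0] at h2
    have h3 : g A B ((k - 1 : ℕ) : ℝ) + C ≤ g A B ((k - 1 : ℕ) : ℝ) / 2 := by
      by_cases ha2 : a = k - 1
      · rw [ha2] at e
        exact e.le
      · have h3 := h (some (⟨k - 1, hk1⟩, true)) (by simp; omega) (by simp)
        rw [vT, vN] at h3
        exact h3.le
    linarith
  have hcyc : ∀ a b, cyc k a b = cyc k b a := by
    intro a b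
    unfold cyc
    rw [max_comm, min_comm a b]
  have hcaa : ∀ a, cyc k a a ≤ 1 := by
    intro a
    unfold cyc
    omega
  have hl' : ∀ m, m ≠ j → m ≠ i → l (truncPt k m) < l (truncPt k j) := by
    intro m h1 h2
    rw [← he]
    exact hl m h2 h1
  have hl2 : ∀ m, m ≠ i → m ≠ j → l (truncPt k m) < l (truncPt k j) :=
    fun m h1 h2 => hl' m h2 h1
  have hl3 : ∀ m, m ≠ j → m ≠ i → l (truncPt k m) < l (truncPt k i) :=
    fun m h1 h2 => hl m h2 h1
  rcases i with _ | ⟨⟨a, ha⟩, s⟩
  · rcases j with _ | ⟨⟨b, hb⟩, t⟩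
    · exact absurd rfl hij
    · cases t
      · refine Or.inl ⟨rfl, ?_⟩
        show cyc k 0 b ≤ 1
        rw [hcyc]
        exact BN b hb he.symm hl3
      · refine Or.inr ⟨by simp [truncBit], ?_⟩
        show 0 = b
        exact (TN b hb he.symm hl3).symm
  · rcases j with _ | ⟨⟨b, hb⟩, t⟩
    · cases s
      · exact Or.inl ⟨rfl, BN a ha he hl2⟩
      · exact Or.inr ⟨by simp [truncBit], TN a ha he hl2⟩
    · cases s <;> cases t
      · refine Or.inl ⟨rfl, ?_⟩
        show cyc k a b ≤ 1
        rcases lt_trichotomy a b with h1 | h1 | h1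
        · exact BB a b ha hb h1 he hl
        · rw [h1]
          exact hcaa b
        · rw [hcyc]
          exact BB b a hb ha h1 he.symm hl'
      · refine Or.inr ⟨by simp [truncBit], ?_⟩
        show a = b
        exact (TB b a hb ha he.symm hl3).symm
      · refine Or.inr ⟨by simp [truncBit], ?_⟩
        show a = b
        exact TB a b ha hb he hl2
      · refine Or.inl ⟨rfl, ?_⟩
        show cyc k a b ≤ 1
        rcases lt_trichotomy a b with h1 | h1 | h1
        · exact TT a b ha hb h1 he hl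
        · rw [h1]
          exact hcaa b
        · rw [hcyc]
          exact TT b a hb ha h1 he.symm hl'

end MP_761168_co
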