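import Pool.Agent.Lib.MP_761168_co.L.L4a_29
import Pool.Agent.Lib.MP_761168_co.L.L4c_51

/-!
# Lower bound: the prisms
-/

namespace MP_761168_co

open Finset L4c51

/-- L3a -/
theorem prism_allExp (k : ℕ) : AllExp (prismPt k) := by
  rintro ⟨i, e⟩
  have hsq : ∀ j : Fin k, j ≠ i → (1 : ℝ) ≤ (((i : ℕ) : ℝ) - ((j : ℕ) : ℝ)) ^ 2 := by
    intro j hj
    have h1 : ((i : ℕ) : ℤ) - ((j : ℕ) : ℤ) ≠ 0 := by
      intro h
      apply hj
      apply Fin.ext
      omega
    have h2 : (1 : ℤ) ≤ (((i : ℕ) : ℤ) - ((j : ℕ) : ℤ)) ^ 2 := by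
      have : 0 < (((i : ℕ) : ℤ) - ((j : ℕ) : ℤ)) ^ 2 := by positivity
      omega
    exact_mod_cast h2
  refine ⟨fun29 (2 * (i : ℕ)) (-1) (if e then 1 else -1), ?_⟩
  rintro ⟨j, f⟩ hj
  simp only [prismPt]
  rw [fun29_apply, fun29_apply]
  by_cases hji : j = i
  · subst hji
    cases e <;> cases f
    · exact absurd rfl hj
    · simp only [Bool.false_eq_true, if_false, if_true]
      linarith
    · simp only [Bool.false_eq_true, if_false, if_true]
      linarith
    · exact absurd rfl hj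
  · have := hsq j hji
    cases e <;> cases f <;> simp only [Bool.false_eq_true, if_false, if_true] <;> nlinarith

/-- L3b -/
theorem prism_full {k : ℕ} (hk : 3 ≤ k) (l : E3 →ₗ[ℝ] ℝ)
    (h : ∀ i j, l (prismPt k i) = l (prismPt k j)) : l = 0 := by
  have e0 : prismPt k (⟨0, by omega⟩, true) = (!₂[0, 0, 1] : E3) := by
    simp [prismPt]
  have e1 : prismPt k (⟨1, by omega⟩, true) = (!₂[1, 1, 1] : E3) := by
    simp [prismPt]
  have e2 : prismPt k (⟨2, by omega⟩, true) = (!₂[2, 4, 1] : E3) := by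
    simp [prismPt]; norm_num
  have e3 : prismPt k (⟨1, by omega⟩, false) = (!₂[1, 1, 0] : E3) := by
    simp [prismPt]
  have h1 := h (⟨0, by omega⟩, true) (⟨1, by omega⟩, true)
  have h2 := h (⟨0, by omega⟩, true) (⟨2, by omega⟩, true)
  have h3 := h (⟨1, by omega⟩, true) (⟨1, by omega⟩, false)
  rw [e0, e1, lin29 l (!₂[0, 0, 1] : E3), lin29 l (!₂[1, 1, 1] : E3)] at h1
  rw [e0, e2, lin29 l (!₂[0, 0, 1] : E3), lin29 l (!₂[2, 4, 1] : E3)] at h2
  rw [e1, e3, lin29 l (!₂[1, 1, 1] : E3), lin29 l (!₂[1, 1, 0] : E3)] at h3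
  simp at h1 h2 h3
  have ha : l (!₂[1, 0, 0] : E3) = 0 := by linarith
  have hb : l (!₂[0, 1, 0] : E3) = 0 := by linarith
  have hc : l (!₂[0, 0, 1] : E3) = 0 := by linarith
  refine LinearMap.ext fun x => ?_
  rw [lin29 l x, ha, hb, hc]
  simp

/-- L3c -/
theorem prism_adj {k : ℕ} (hk : 3 ≤ k) (i j : Fin k × Bool) (hij : i ≠ j)
    (h : ∃ l : E3 →ₗ[ℝ] ℝ, l (prismPt k i) = l (prismPt k j) ∧
      ∀ m, m ≠ i → m ≠ j → l (prismPt k m) < l (prismPt k i)) :
    (i.2 = j.2 ∧ cyc k i.1 j.1 ≤ 1) ∨ (i.2 ≠ j.2 ∧ (i.1 : ℕ) = j.1) := by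
  obtain ⟨l, he, hl⟩ := h
  obtain ⟨A, B, C, hABC⟩ := coords l
  have v : ∀ (m : ℕ) (hm : m < k) (e : Bool),
      l (prismPt k (⟨m, hm⟩, e)) = g A B m + (if e then C else 0) := by
    intro m hm e
    simp only [prismPt]
    rw [hABC]
    unfold g
    cases e <;> simp
  -- same level
  have S : ∀ (a b : ℕ) (ha : a < k) (hb : b < k) (e : Bool), a < b →
      l (prismPt k (⟨a, ha⟩, e)) = l (prismPt k (⟨b, hb⟩, e)) →
      (∀ m, m ≠ (⟨a, ha⟩, e) → m ≠ (⟨b, hb⟩, e) →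
        l (prismPt k m) < l (prismPt k (⟨a, ha⟩, e))) → cyc k a b ≤ 1 := by
    intro a b ha hb e hab h1 h2
    by_contra hc
    have h3 : a + 2 ≤ b ∧ (a ≠ 0 ∨ b + 1 ≠ k) := by
      unfold cyc at hc
      omega
    refine top_top (A := A) (B := B) h3.1 hb h3.2 ?_ fun m hm h4 h5 => ?_
    · rw [v, v] at h1
      linarith
    · have := h2 (⟨m, hm⟩, e) (by simpa using h4) (by simpa using h5)
      rw [v, v] at this
      linarith
  have hcyc : ∀ a b, cyc k a b = cyc k b a := by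
    intro a b
    unfold cyc
    rw [max_comm, min_comm a b]
  have hcaa : ∀ a, cyc k a a ≤ 1 := by
    intro a
    unfold cyc
    omega
  obtain ⟨⟨a, ha⟩, e⟩ := i
  obtain ⟨⟨b, hb⟩, f⟩ := j
  by_cases hef : e = f
  · subst hef
    refine Or.inl ⟨rfl, ?_⟩
    show cyc k a b ≤ 1
    rcases lt_trichotomy a b with h1 | h1 | h1
    · exact S a b ha hb e h1 he hl
    · rw [h1]
      exact hcaa b
    · rw [hcyc]
      refine S b a hb ha e h1 he.symm fun m h2 h3 => ?_
      rw [← he]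
      exact hl m h3 h2
  · refine Or.inr ⟨hef, ?_⟩
    show a = b
    by_contra hab
    have h1 := hl (⟨a, ha⟩, f) (by
      intro hc
      exact hef (Prod.ext_iff.1 hc).2.symm) (by
      intro hc
      have := congrArg (fun z : Fin k × Bool => (z.1 : ℕ)) hc
      exact hab this)
    have h2 := hl (⟨b, hb⟩, e) (by
      intro hc
      have := congrArg (fun z : Fin k × Bool => (z.1 : ℕ)) hc
      exact hab this.symm) (by
      intro hc
      exact hef (Prod.ext_iff.1 hc).2)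
    rw [v, v] at h1
    rw [v, v] at h2
    rw [v, v] at he
    linarith

end MP_761168_co
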