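import Pool.Agent.Lib.MP_761168_co.L.Defs56

/-!
Rows L4a, L4b of the lower bound (helper29).
-/

namespace MP_761168_co

open Finset

/-- The linear functional with coefficients `A, B, C`. -/
noncomputable def fun29 (A B C : ℝ) : E3 →ₗ[ℝ] ℝ where
  toFun x := A * x 0 + B * x 1 + C * x 2
  map_add' x y := by simp; ring
  map_smul' c x := by simp; ring

theorem fun29_apply (A B C a b c : ℝ) : fun29 A B C (!₂[a, b, c] : E3) = A * a + B * b + C * c := by
  simp [fun29]

/-- L4a -/
theorem trunc_allExp {k : ℕ} (hk : 3 ≤ k) : AllExp (truncPt k) := by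
  have hkR : (3 : ℝ) ≤ k := by exact_mod_cast hk
  intro i
  rcases i with _ | ⟨i, e⟩
  · -- the midpoint at the far edge
    refine ⟨fun29 (-(2 * k - 1)) 2 (-k), ?_⟩
    intro j hj
    rcases j with _ | ⟨j, f⟩
    · exact absurd rfl hj
    · have hjk : ((j : ℕ) : ℝ) ≤ k - 1 := by
        have : (j : ℕ) + 1 ≤ k := j.2
        have h2 : (((j : ℕ) + 1 : ℕ) : ℝ) ≤ k := by exact_mod_cast this
        push_cast at h2
        linarith
      have hj0 : (0 : ℝ) ≤ ((j : ℕ) : ℝ) := Nat.cast_nonneg _
      simp only [truncPt]
      split_ifs with h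
      · rw [fun29_apply, fun29_apply]
        nlinarith
      · simp only [prismPt]
        rw [fun29_apply, fun29_apply]
        cases f
        · have hj1 : (1 : ℝ) ≤ ((j : ℕ) : ℝ) := by
            have : (j : ℕ) ≠ 0 := fun h' => h ⟨h', rfl⟩
            exact_mod_cast Nat.one_le_iff_ne_zero.2 this
          simp only [Bool.false_eq_true, if_false]
          nlinarith [mul_nonneg (sub_nonneg.2 hj1) (sub_nonneg.2 hjk)]
        · simp only [if_true]
          nlinarith [mul_nonneg hj0 (sub_nonneg.2 hjk)]
  · by_cases hc : (i : ℕ) = 0 ∧ e = false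
    · -- the midpoint at the near edge
      refine ⟨fun29 (1 - k) 0 (-k), ?_⟩
      intro j hj
      have hi : truncPt k (some (i, e)) = (!₂[1 / 2, 1 / 2, 0] : E3) := by
        simp only [truncPt]
        rw [if_pos hc]
      rw [hi]
      rcases j with _ | ⟨j, f⟩
      · simp only [truncPt]
        rw [fun29_apply, fun29_apply]
        nlinarith
      · have hj0 : (0 : ℝ) ≤ ((j : ℕ) : ℝ) := Nat.cast_nonneg _
        simp only [truncPt]
        split_ifs with h
        · exfalso
          apply hj
          congr 1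
          refine Prod.ext (Fin.ext ?_) ?_
          · rw [h.1, hc.1]
          · exact h.2.trans hc.2.symm
        · simp only [prismPt]
          rw [fun29_apply, fun29_apply]
          cases f
          · have hj1 : (1 : ℝ) ≤ ((j : ℕ) : ℝ) := by
              have : (j : ℕ) ≠ 0 := fun h' => h ⟨h', rfl⟩
              exact_mod_cast Nat.one_le_iff_ne_zero.2 this
            simp only [Bool.false_eq_true, if_false]
            nlinarith
          · simp only [if_true]
            nlinarith
    · have hi : truncPt k (some (i, e)) = prismPt k (i, e) := by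
        simp only [truncPt]
        rw [if_neg hc]
      have hi0 : (0 : ℝ) ≤ ((i : ℕ) : ℝ) := Nat.cast_nonneg _
      -- squares of differences of different indices
      have hsq : ∀ j : Fin k, j ≠ i → (1 : ℝ) ≤ (((i : ℕ) : ℝ) - ((j : ℕ) : ℝ)) ^ 2 := by
        intro j hj
        have h1 : ((i : ℕ) : ℤ) - ((j : ℕ) : ℤ) ≠ 0 := by
          intro h
          apply hj
          apply Fin.ext
          omega
        have h2 : (1 : ℤ) ≤ (((i : ℕ) : ℤ) - ((j : ℕ) : ℤ)) ^ 2 := by
          have : 0 < (((i : ℕ) : ℤ) - ((j : ℕ) : ℤ)) ^ 2 := by positivity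
          omega
        exact_mod_cast h2
      cases e
      · -- a bottom vertex
        have hi1 : (1 : ℝ) ≤ ((i : ℕ) : ℝ) := by
          have : (i : ℕ) ≠ 0 := fun h' => hc ⟨h', rfl⟩
          exact_mod_cast Nat.one_le_iff_ne_zero.2 this
        have hi2 : truncPt k (some (i, false)) = (!₂[((i : ℕ) : ℝ), ((i : ℕ) : ℝ) ^ 2, 0] : E3) := by
          rw [hi]; simp [prismPt]
        refine ⟨fun29 (2 * (i : ℕ)) (-1) (-1), ?_⟩
        intro j hj
        rw [hi2, fun29_apply]
        rcases j with _ | ⟨j, f⟩
        · simp only [truncPt]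
          rw [fun29_apply]
          nlinarith [sq_nonneg (((i : ℕ) : ℝ) - (k - 1))]
        · simp only [truncPt]
          split_ifs with h
          · rw [fun29_apply]
            nlinarith
          · simp only [prismPt]
            rw [fun29_apply]
            cases f
            · have hne : j ≠ i := by
                rintro rfl
                exact hj rfl
              have := hsq j hne
              simp only [Bool.false_eq_true, if_false]
              nlinarith
            · simp only [if_true]
              nlinarith [sq_nonneg (((i : ℕ) : ℝ) - ((j : ℕ) : ℝ))]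
      · -- a top vertex
        have hi2 : truncPt k (some (i, true)) = (!₂[((i : ℕ) : ℝ), ((i : ℕ) : ℝ) ^ 2, 1] : E3) := by
          rw [hi]; simp [prismPt]
        refine ⟨fun29 (2 * (i : ℕ)) (-1) 1, ?_⟩
        intro j hj
        rw [hi2, fun29_apply]
        rcases j with _ | ⟨j, f⟩
        · simp only [truncPt]
          rw [fun29_apply]
          nlinarith [sq_nonneg (((i : ℕ) : ℝ) - (k - 1))]
        · simp only [truncPt]
          split_ifs with h
          · rw [fun29_apply]
            nlinarith [sq_nonneg (((i : ℕ) : ℝ) - 1 / 2)]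
          · simp only [prismPt]
            rw [fun29_apply]
            cases f
            · simp only [Bool.false_eq_true, if_false]
              nlinarith [sq_nonneg (((i : ℕ) : ℝ) - ((j : ℕ) : ℝ))]
            · have hne : j ≠ i := by
                rintro rfl
                exact hj rfl
              have := hsq j hne
              simp only [if_true]
              nlinarith

/-- Coordinates of a linear functional. -/
theorem lin29 (l : E3 →ₗ[ℝ] ℝ) (x : E3) :
    l x = x 0 * l (!₂[1, 0, 0] : E3) + x 1 * l (!₂[0, 1, 0] : E3) + x 2 * l (!₂[0, 0, 1] : E3) := by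
  have hx : x = x 0 • (!₂[1, 0, 0] : E3) + x 1 • (!₂[0, 1, 0] : E3) + x 2 • (!₂[0, 0, 1] : E3) := by
    ext i
    fin_cases i <;> simp
  conv_lhs => rw [hx]
  simp only [map_add, map_smul, smul_eq_mul]

/-- L4b -/
theorem trunc_full {k : ℕ} (hk : 3 ≤ k) (l : E3 →ₗ[ℝ] ℝ)
    (h : ∀ i j, l (truncPt k i) = l (truncPt k j)) : l = 0 := by
  have e0 : truncPt k (some (⟨0, by omega⟩, true)) = (!₂[0, 0, 1] : E3) := by
    simp [truncPt, prismPt]
  have e1 : truncPt k (some (⟨1, by omega⟩, true)) = (!₂[1, 1, 1] : E3) := by
    simp [truncPt, prismPt]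
  have e2 : truncPt k (some (⟨2, by omega⟩, true)) = (!₂[2, 4, 1] : E3) := by
    simp [truncPt, prismPt]; norm_num
  have e3 : truncPt k (some (⟨1, by omega⟩, false)) = (!₂[1, 1, 0] : E3) := by
    simp [truncPt, prismPt]
  have h1 := h (some (⟨0, by omega⟩, true)) (some (⟨1, by omega⟩, true))
  have h2 := h (some (⟨0, by omega⟩, true)) (some (⟨2, by omega⟩, true))
  have h3 := h (some (⟨1, by omega⟩, true)) (some (⟨1, by omega⟩, false))
  rw [e0, e1, lin29 l (!₂[0, 0, 1] : E3), lin29 l (!₂[1, 1, 1] : E3)] at h1
  rw [e0, e2, lin29 l (!₂[0, 0, 1] : E3), lin29 l (!₂[2, 4, 1] : E3)] at h2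
  rw [e1, e3, lin29 l (!₂[1, 1, 1] : E3), lin29 l (!₂[1, 1, 0] : E3)] at h3
  simp at h1 h2 h3
  have ha : l (!₂[1, 0, 0] : E3) = 0 := by linarith
  have hb : l (!₂[0, 1, 0] : E3) = 0 := by linarith
  have hc : l (!₂[0, 0, 1] : E3) = 0 := by linarith
  refine LinearMap.ext fun x => ?_
  rw [lin29 l x, ha, hb, hc]
  simp

end MP_761168_co
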