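import Pool.Agent.Lib.MP_761168_co.L.Defs56
import Pool.Agent.Lib.MP_761168_co.L.L1_11
import Pool.Agent.Lib.MP_761168_co.L.L2_56
import Pool.Agent.Lib.MP_761168_co.L.L3_56
import Pool.Agent.Lib.MP_761168_co.L.L4a_29
import Pool.Agent.Lib.MP_761168_co.L.L4c_51

/-!
# Lower bound: polytopes with n vertices and radius n / 4 + 1
-/

namespace MP_761168_co

open Finset

/-- For every n >= 6 there is a 3-polytope with n vertices and radius at least n / 4 + 1. -/
theorem exists_polytope (n : ℕ) (hn : 6 ≤ n) :
    ∃ P : Set E3, IsPolytope3 P ∧ (P.extremePoints ℝ).encard = n ∧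
      ((n / 4 + 1 : ℕ) : ℕ∞) ≤ (vertexGraph P).radius := by
  have hfar : ∀ k : ℕ, 3 ≤ k → ∀ a < k, ∃ b < k, k / 2 ≤ cyc k a b := by
    intro k hk a ha
    by_cases h : a + k / 2 < k
    · refine ⟨a + k / 2, h, ?_⟩
      unfold cyc
      omega
    · refine ⟨a - k / 2, by omega, ?_⟩
      unfold cyc
      omega
  obtain ⟨k, hk | hk⟩ : ∃ k, n = 2 * k ∨ n = 2 * k + 1 := ⟨n / 2, by omega⟩
  · have hk3 : 3 ≤ k := by omega
    refine ⟨convexHull ℝ (Set.range (prismPt k)), isPolytope3_range (prism_full hk3)
      ⟨(⟨0, by omega⟩, true)⟩, ?_, ?_⟩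
    · rw [(prism_allExp k).extreme, ← Set.image_univ,
        (prism_allExp k).injective.encard_image, Set.encard_univ]
      simp [hk]
      ring
    · have := radius_ge (prism_allExp k) (by omega) (fun x => x.2) (fun x => (x.1 : ℕ))
        (fun x => x.1.2) (prism_adj hk3) (fun x => by
          obtain ⟨b, hb, h⟩ := hfar k hk3 x.1 x.1.2
          exact ⟨(⟨b, hb⟩, !x.2), by simp, h⟩)
      have he : n / 4 = k / 2 := by omega
      rw [he]
      exact this
  · have hk3 : 3 ≤ k := by omega
    refine ⟨convexHull ℝ (Set.range (truncPt k)), isPolytope3_range (trunc_full hk3)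
      ⟨none⟩, ?_, ?_⟩
    · rw [(trunc_allExp hk3).extreme, ← Set.image_univ,
        (trunc_allExp hk3).injective.encard_image, Set.encard_univ]
      simp [hk]
      ring
    · have := radius_ge (trunc_allExp hk3) (by omega) (truncBit k) (truncIdx k)
        (fun x => by
          rcases x with _ | x
          · show 0 < k
            omega
          · exact x.1.2) (trunc_adj hk3) (fun x => by
          rcases x with _ | x
          · obtain ⟨b, hb, h⟩ := hfar k hk3 0 (by omega)
            exact ⟨some (⟨b, hb⟩, true), by simp [truncBit], h⟩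
          · obtain ⟨b, hb, h⟩ := hfar k hk3 x.1 x.1.2
            exact ⟨some (⟨b, hb⟩, !x.2), by simp [truncBit], h⟩)
      have he : n / 4 = k / 2 := by omega
      rw [he]
      exact this

end MP_761168_co
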